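import Pool.Agent.Helper56.RZ.GoalsF
import Pool.Agent.Helper56.RZ.FinT
import Mathlib

/-!
# Project RZ5, packet LR5: local near returns
-/

set_option autoImplicit false

open Set Filter Topology MeasureTheory

namespace Pool.Agent.Helper7.RZ

open Pool.Agent.Helper56.RZ

theorem lr5 : StmtBC5 → StmtVB5 → StmtRTB → StmtNM → StmtLR5 := by
  intro hBC hVB hRTB hNM N K M m f f' P hSV hf hfm hPH hr l ε β hl hl1 hε hβ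
  have hf1 : IsDiffeo 1 M f f' := hf.of_le' (by exact_mod_cast (by norm_num : (1 : ℕ) ≤ 2))
  have hnm := hNM N K M m f f' P hSV hf1 hPH
  obtain ⟨CV, hCV0, hCV⟩ := hVB N K M m hSV
  have hnull : ∀ᵐ x ∂m, x ∈ M := by
    rw [ae_iff]
    exact hSV.null
  have hU : ∀ y : {x : E K // x ∈ M ∧ ∀ j : ℕ, 1 ≤ j → f^[j] x ≠ x},
      ∃ (U : Set (E K)) (C : ℝ), IsOpen U ∧ (y : E K) ∈ U ∧
        ∀ ρ : ℝ, 0 < ρ → ∀ N0 : ℕ, ∑ n ∈ Finset.range N0,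
          l ^ n * (m {x | x ∈ M ∩ U ∧ ‖f^[n + 1] x - x‖ ≤ ρ}).toReal ≤ C * ρ ^ 2 := by
    intro y
    obtain ⟨U, C, h1, h2, h3⟩ :=
      hRTB N K M m f f' P hSV hf hfm hPH y y.2.1 y.2.2 l hl hl1
    refine ⟨U, C, h1, h2, ?_⟩
    have h4 : rk (P 0 (y : E K)) + rk (P 2 (y : E K)) = 2 := by
      obtain ⟨h5, h6⟩ := hr y y.2.1
      have h7 : rk (P 0 (y : E K)) = 1 := h5
      have h8 : rk (P 2 (y : E K)) = 1 := h6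
      rw [h7, h8]
    rw [h4] at h3
    exact h3
  choose U C hUo hUm hUb using hU
  obtain ⟨T, hTc, hTU⟩ := TopologicalSpace.isOpen_iUnion_countable U hUo
  have hmain : ∀ᵐ x0 ∂m, ∀ y ∈ T, x0 ∈ U y → ∀ C2 : ℝ, ∃ C ρ0 : ℝ, 0 ≤ C ∧ 0 < ρ0 ∧ ρ0 ≤ 1 ∧
      ∀ ρ : ℝ, 0 < ρ → ρ ≤ ρ0 → ∀ N0 : ℕ, ∑ n ∈ Finset.range N0,
        l ^ n * (m {x | x ∈ M ∧ ‖x - x0‖ ≤ C2 * ρ ^ β ∧ ‖f^[n + 1] x - x‖ ≤ C2 * ρ}).toReal ≤
          C * ρ ^ (2 - ε) * (ρ ^ β) ^ N := by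
    rw [ae_ball_iff hTc]
    intro y _
    refine hBC N K M m (fun n x => ‖f^[n + 1] x - x‖) (U y) l ε β (C y) CV hSV.compact
      hSV.finite hSV.null ?_ (hUo y) hl hl1 hε hβ hCV0 hCV (hUb y)
    intro n
    exact (((iter_diffeo hf1 (n + 1)).smooth.continuousOn).sub continuousOn_id).norm
  filter_upwards [hmain, hnm, hnull] with x0 h1 h2 h3
  have h4 : x0 ∈ ⋃ y, U y := mem_iUnion.2 ⟨⟨x0, h3, h2⟩, hUm ⟨x0, h3, h2⟩⟩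
  rw [← hTU] at h4
  obtain ⟨y, hyT, hy⟩ := mem_iUnion₂.1 h4
  exact h1 y hyT hy

end Pool.Agent.Helper7.RZ
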